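import Pool.Agent.H510.EW.Fin
import Pool.Graph.R_seed8.Y745.LD.Asm2
import Pool.Graph.R_seed8.Y745.LD.VB5
import Pool.Graph.R_pool_sql_team_seeded_1acbe0a2.Y781.LT.Core
import Pool.Graph.R_pool_sql_team_seeded_3997aac3.Q97.UM.Jm

set_option autoImplicit false

/-!
# Project LT of helper745: the left tail of `log |ζ(1/2+it)|`, assembled from the libraries
-/

namespace Pool.Agent.H158.LT

open Filter Topology MeasureTheory Complex H370 Pool.Agent.Y745.SW Pool.Agent.Y745.LD Pool.Agent.Y745.LT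
  Pool.Agent.H510.EW

theorem p_VBLK : P_VBLK :=
  Pool.Agent.Y745.LD.vblk Pool.Agent.Y833.SW.t_DI Pool.Agent.Y655.SW.t_TRK Pool.Agent.Y627.SW.t_MN
    H370.good_zeta Pool.Agent.Y786.LD.t_KER2 Pool.Agent.Y290.LD.t_DFU (Pool.Agent.Y811.LD.t_VDQ p_VMR) p_EFU p_VSM
    p_CNT2 Pool.Agent.Y871.LD.t_COST

theorem deriv_ne_zero {ρ : ℂ} (hne1 : ρ ≠ 1) (h1 : H370.mult riemannZeta ρ = 1) : deriv riemannZeta ρ ≠ 0 := by
  have han : AnalyticAt ℂ riemannZeta ρ := by
    have hopen : IsOpen ({1}ᶜ : Set ℂ) := isOpen_compl_singleton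
    have hd : DifferentiableOn ℂ riemannZeta {1}ᶜ := fun s hs =>
      (differentiableAt_riemannZeta hs).differentiableWithinAt
    exact hd.analyticAt (hopen.mem_nhds hne1)
  unfold H370.mult at h1
  have hord : analyticOrderAt riemannZeta ρ = 1 := by
    have h2 : analyticOrderAt riemannZeta ρ ≠ ⊤ := by
      intro h
      rw [analyticOrderNatAt, h] at h1
      simp at h1
    have h3 := Nat.cast_analyticOrderNatAt h2
    rw [h1] at h3
    rw [← h3]
    rfl
  obtain ⟨g, hg, hg0, hgE⟩ := (han.analyticOrderAt_eq_natCast (n := 1)).mp (by rw [hord]; rfl)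
  have h4 : HasDerivAt (fun z => (z - ρ) * g z) (g ρ) ρ := by
    have h5 : HasDerivAt (fun z => (z - ρ) * g z) (1 * g ρ + (ρ - ρ) * deriv g ρ) ρ :=
      ((hasDerivAt_id ρ).sub_const ρ).mul hg.differentiableAt.hasDerivAt
    simpa using h5
  have h6 : riemannZeta =ᶠ[𝓝 ρ] fun z => (z - ρ) * g z := by
    filter_upwards [hgE] with z hz
    rw [hz, pow_one, smul_eq_mul]
  rw [h6.deriv_eq, h4.deriv]
  exact hg0

theorem s_fin : Pool.Agent.Y781.LT.S_FIN :=
  Pool.Agent.Y745.LD.ld_count p_VBLK p_DERV p_G1M p_G2M p_VM1 p_VMT p_PW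

/-- the left tail beyond `(1/2) log log T` -/
theorem ztail : P_ZTAIL :=
  Pool.Agent.Y781.LT.core s_fin p_ZUP0 Pool.Agent.Y655.SW.t_HAR good_zeta
    (fun _ hs _ hm => deriv_ne_zero hs hm)

end Pool.Agent.H158.LT
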