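import Mathlib

set_option autoImplicit false

/-!
# The left tail of a function near its simple zeros
-/

namespace Pool.Agent.H158.LT

open Filter Topology MeasureTheory Complex

/-- near a simple zero on the line zeta is at most twice the linear term -/
lemma near_zero {ρ : ℂ} (hre : ρ.re = 1 / 2) (h0 : riemannZeta ρ = 0) (hd : deriv riemannZeta ρ ≠ 0) :
    ∃ r : ℝ, 0 < r ∧ ∀ t : ℝ, |t - ρ.im| < r →
      ‖riemannZeta (1 / 2 + t * I)‖ ≤ 2 * ‖deriv riemannZeta ρ‖ * |t - ρ.im| := by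
  have hdiff : DifferentiableAt ℂ riemannZeta ρ := by
    by_contra h
    exact hd (deriv_zero_of_not_differentiableAt h)
  have h1 := hdiff.hasDerivAt.isLittleO
  have hp : 0 < ‖deriv riemannZeta ρ‖ := norm_pos_iff.2 hd
  have h2 := h1.def hp
  rw [Metric.eventually_nhds_iff] at h2
  obtain ⟨r, hr, h2⟩ := h2
  refine ⟨r, hr, fun t ht => ?_⟩
  have e1 : (1 / 2 + t * I : ℂ) - ρ = ((t - ρ.im : ℝ) : ℂ) * I := by
    apply Complex.ext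
    · simp [hre]
    · simp
  have e2 : ‖(1 / 2 + t * I : ℂ) - ρ‖ = |t - ρ.im| := by
    rw [e1, norm_mul, Complex.norm_I, mul_one, Complex.norm_real, Real.norm_eq_abs]
  have h3 := h2 (y := 1 / 2 + t * I) (by rw [dist_eq_norm, e2]; exact ht)
  rw [h0, sub_zero, e2] at h3
  have h4 : ‖riemannZeta (1 / 2 + t * I)‖ ≤
      ‖riemannZeta (1 / 2 + t * I) - ((1 / 2 + t * I : ℂ) - ρ) • deriv riemannZeta ρ‖ +
        ‖((1 / 2 + t * I : ℂ) - ρ) • deriv riemannZeta ρ‖ := by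
    have := norm_add_le (riemannZeta (1 / 2 + t * I) - ((1 / 2 + t * I : ℂ) - ρ) • deriv riemannZeta ρ)
      (((1 / 2 + t * I : ℂ) - ρ) • deriv riemannZeta ρ)
    rwa [sub_add_cancel] at this
  rw [norm_smul, e2] at h4
  calc ‖riemannZeta (1 / 2 + t * I)‖ ≤ ‖deriv riemannZeta ρ‖ * |t - ρ.im| + |t - ρ.im| * ‖deriv riemannZeta ρ‖ :=
        h4.trans (add_le_add h3 le_rfl)
    _ = _ := by ring

/-- the set where zeta is small near finitely many simple zeros on the line -/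
lemma sum_le (F : Finset ℂ) (T : ℝ) (hre : ∀ ρ ∈ F, ρ.re = 1 / 2) (h0 : ∀ ρ ∈ F, riemannZeta ρ = 0)
    (hd : ∀ ρ ∈ F, deriv riemannZeta ρ ≠ 0) (hp : ∀ ρ ∈ F, 0 < ρ.im) (hT : ∀ ρ ∈ F, ρ.im ≤ T) :
    ∀ᶠ x : ℝ in atTop, Real.exp (-x) * ∑ ρ ∈ F, (2 * ‖deriv riemannZeta ρ‖)⁻¹ ≤
      volume.real {t : ℝ | t ∈ Set.Icc 0 T ∧ ‖riemannZeta (1 / 2 + t * I)‖ < Real.exp (-x)} := by
  classical
  have key : ∀ ρ ∈ F, ∀ y : ℝ, 0 < y → ∀ᶠ x : ℝ in atTop, Real.exp (-x) * (2 * ‖deriv riemannZeta ρ‖)⁻¹ < y := by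
    intro ρ _ y hy
    have h1 : Tendsto (fun x : ℝ => Real.exp (-x) * (2 * ‖deriv riemannZeta ρ‖)⁻¹) atTop
        (𝓝 (0 * (2 * ‖deriv riemannZeta ρ‖)⁻¹)) :=
      (Real.tendsto_exp_neg_atTop_nhds_zero).mul_const _
    rw [zero_mul] at h1
    exact h1.eventually_lt_const hy
  choose r hr hz using fun (ρ : ℂ) (hρ : ρ ∈ F) => near_zero (hre ρ hρ) (h0 ρ hρ) (hd ρ hρ)
  have ev1 : ∀ᶠ x : ℝ in atTop, ∀ ρ (hρ : ρ ∈ F), Real.exp (-x) * (2 * ‖deriv riemannZeta ρ‖)⁻¹ < r ρ hρ := by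
    have : ∀ᶠ x : ℝ in atTop, ∀ ρ : F, Real.exp (-x) * (2 * ‖deriv riemannZeta ρ.1‖)⁻¹ < r ρ.1 ρ.2 :=
      eventually_all.2 fun ρ => key ρ.1 ρ.2 _ (hr ρ.1 ρ.2)
    filter_upwards [this] with x hx ρ hρ
    exact hx ⟨ρ, hρ⟩
  have ev2 : ∀ᶠ x : ℝ in atTop, ∀ ρ ∈ F, Real.exp (-x) * (2 * ‖deriv riemannZeta ρ‖)⁻¹ < ρ.im :=
    (F.eventually_all).2 fun ρ hρ => key ρ hρ _ (hp ρ hρ)
  have hne : ∀ ρ ∈ F, ∀ ρ' ∈ F, ρ ≠ ρ' → ρ.im ≠ ρ'.im := by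
    intro ρ hρ ρ' hρ' hn h
    exact hn (Complex.ext ((hre ρ hρ).trans (hre ρ' hρ').symm) h)
  have ev3 : ∀ᶠ x : ℝ in atTop, ∀ ρ ∈ F, ∀ ρ' ∈ F, ρ ≠ ρ' →
      Real.exp (-x) * (2 * ‖deriv riemannZeta ρ‖)⁻¹ < |ρ.im - ρ'.im| := by
    refine (F.eventually_all).2 fun ρ hρ => (F.eventually_all).2 fun ρ' hρ' => ?_
    by_cases h : ρ = ρ'
    · exact Eventually.of_forall fun _ h' => absurd h h'
    · filter_upwards [key ρ hρ _ (abs_pos.2 (sub_ne_zero.2 (hne ρ hρ ρ' hρ' h)))] with x hx _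
      exact hx
  filter_upwards [ev1, ev2, ev3] with x h1 h2 h3
  set w : ℂ → ℝ := fun ρ => Real.exp (-x) * (2 * ‖deriv riemannZeta ρ‖)⁻¹ with hw
  have hw0 : ∀ ρ ∈ F, 0 < w ρ := by
    intro ρ hρ
    have := norm_pos_iff.2 (hd ρ hρ)
    simp only [hw]
    positivity
  have hsub : ∀ ρ ∈ F, Set.Ioo (ρ.im - w ρ) ρ.im ⊆
      {t : ℝ | t ∈ Set.Icc 0 T ∧ ‖riemannZeta (1 / 2 + t * I)‖ < Real.exp (-x)} := by
    intro ρ hρ t ht
    have hlt : |t - ρ.im| < w ρ := by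
      rw [abs_lt]
      constructor
      · linarith [ht.1]
      · linarith [ht.2, hw0 ρ hρ]
    refine ⟨⟨by linarith [ht.1, h2 ρ hρ], by linarith [ht.2, hT ρ hρ]⟩, ?_⟩
    have h5 := hz ρ hρ t (hlt.trans (h1 ρ hρ))
    have hnp := norm_pos_iff.2 (hd ρ hρ)
    calc ‖riemannZeta (1 / 2 + t * I)‖ ≤ 2 * ‖deriv riemannZeta ρ‖ * |t - ρ.im| := h5
      _ < 2 * ‖deriv riemannZeta ρ‖ * w ρ := by gcongr
      _ = Real.exp (-x) := by
          simp only [hw]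
          field_simp
  have hdis : (↑F : Set ℂ).PairwiseDisjoint fun ρ => Set.Ioo (ρ.im - w ρ) ρ.im := by
    intro ρ hρ ρ' hρ' hn
    rw [Function.onFun, Set.disjoint_left]
    intro t ht ht'
    have h6 := h3 ρ (Finset.mem_coe.1 hρ) ρ' (Finset.mem_coe.1 hρ') hn
    have h7 := h3 ρ' (Finset.mem_coe.1 hρ') ρ (Finset.mem_coe.1 hρ) hn.symm
    rcases lt_abs.mp h6 with h | h
    · linarith [ht.1, ht'.2]
    · rcases lt_abs.mp h7 with h' | h'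
      · linarith [ht.2, ht'.1]
      · linarith [ht.2, ht'.1, hw0 ρ (Finset.mem_coe.1 hρ), hw0 ρ' (Finset.mem_coe.1 hρ')]
  have hmeas : volume.real (⋃ ρ ∈ F, Set.Ioo (ρ.im - w ρ) ρ.im) =
      ∑ ρ ∈ F, volume.real (Set.Ioo (ρ.im - w ρ) ρ.im) :=
    measureReal_biUnion_finset hdis (fun _ _ => measurableSet_Ioo)
      (fun _ _ => by rw [Real.volume_Ioo]; exact ENNReal.ofReal_ne_top)
  have hle : volume.real (⋃ ρ ∈ F, Set.Ioo (ρ.im - w ρ) ρ.im) ≤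
      volume.real {t : ℝ | t ∈ Set.Icc 0 T ∧ ‖riemannZeta (1 / 2 + t * I)‖ < Real.exp (-x)} := by
    refine measureReal_mono (Set.iUnion₂_subset hsub) ?_
    refine ne_top_of_le_ne_top ?_ (measure_mono (fun t ht => ht.1 : _ ⊆ Set.Icc 0 T))
    rw [Real.volume_Icc]; exact ENNReal.ofReal_ne_top
  refine le_trans (le_of_eq ?_) hle
  rw [hmeas, Finset.mul_sum]
  refine Finset.sum_congr rfl fun ρ hρ => ?_
  rw [Real.volume_real_Ioo_of_le (by linarith [hw0 ρ hρ])]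
  simp only [hw]
  ring

end Pool.Agent.H158.LT
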