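import Pool.Agent.H158.LT.Zt
import Pool.Agent.H158.LT.Loc

set_option autoImplicit false

/-!
# The left tail of `log |ζ(1/2+it)|`: the three estimates
-/

namespace Pool.Agent.H158.LT

open Filter Topology MeasureTheory Complex H370 Pool.Agent.Y745.SW Pool.Agent.Y745.LD Pool.Agent.Y745.LT

/-- the set where zeta is smaller than `exp (-x)` -/
def sm (A B x : ℝ) : Set ℝ := {t : ℝ | t ∈ Set.Icc A B ∧ ‖riemannZeta (1 / 2 + t * I)‖ < Real.exp (-x)}

lemma sm_fin (A B x : ℝ) : volume (sm A B x) ≠ ⊤ := by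
  refine ne_top_of_le_ne_top ?_ (measure_mono (fun t ht => ht.1 : _ ⊆ Set.Icc A B))
  rw [Real.volume_Icc]; exact ENNReal.ofReal_ne_top

lemma sm_mono {A B A' B' x : ℝ} (hA : A' ≤ A) (hB : B ≤ B') : volume.real (sm A B x) ≤ volume.real (sm A' B' x) :=
  measureReal_mono (fun _ ht => ⟨⟨hA.trans ht.1.1, ht.1.2.trans hB⟩, ht.2⟩) (sm_fin _ _ _)

/-- comparison of `log T` and `log (T/2)` -/
lemma log_half : ∀ᶠ T : ℝ in atTop, 1 ≤ Real.log (T / 2) ∧ Real.log T / 2 ≤ Real.log (T / 2) ∧ Real.log (T / 2) ≤ Real.log T := by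
  filter_upwards [eventually_ge_atTop (Real.exp 4)] with T hT
  have h0 : 0 < T := lt_of_lt_of_le (Real.exp_pos _) hT
  have h1 : 4 ≤ Real.log T := by rwa [Real.le_log_iff_exp_le h0]
  have h2 : Real.log (T / 2) = Real.log T - Real.log 2 := Real.log_div h0.ne' (by norm_num)
  have h3 := Real.log_two_lt_d9
  have h4 := Real.log_two_gt_d9
  rw [h2]
  refine ⟨by linarith, by linarith, by linarith⟩

/-- moderate deviations -/
theorem tail_one (ε : ℝ) (hε : 0 < ε) : ∀ᶠ T : ℝ in atTop, ∀ x : ℝ, 0 ≤ x → x ≤ 1 / 2 * Real.log (Real.log T) →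
    T * (Real.log T ^ (-ε) * Real.exp (-(x ^ 2 / Real.log (Real.log T)))) ≤ volume.real (sm 0 T x) := by
  obtain ⟨η, hηd⟩ : ∃ η : ℝ, η = min (ε / 16) (1 / 16) := ⟨_, rfl⟩
  have hη0 : 0 < η := by rw [hηd]; exact lt_min (by linarith) (by norm_num)
  have hη1 : η ≤ ε / 16 := by rw [hηd]; exact min_le_left _ _
  have hη2 : η ≤ 1 / 16 := by rw [hηd]; exact min_le_right _ _
  obtain ⟨δ, -, hex⟩ := Pool.Agent.H510.EW.exceptional η hη0
  obtain ⟨e, T₀, -, hT₀⟩ := hex 1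
  have hLL : Tendsto (fun T : ℝ => Real.log (Real.log T)) atTop atTop := Real.tendsto_log_atTop.comp Real.tendsto_log_atTop
  filter_upwards [log_half, eventually_ge_atTop (2 * T₀), eventually_gt_atTop 2,
    hLL.eventually_ge_atTop (2 / η), hLL.eventually_ge_atTop (2 / ε)] with T h1 h2 h3 h4 h5
  intro x hx0 hx1
  obtain ⟨hh1, hh2, hh3⟩ := h1
  obtain ⟨l, hl⟩ : ∃ l : ℝ, l = Real.log (Real.log T) := ⟨_, rfl⟩
  obtain ⟨m, hm⟩ : ∃ m : ℝ, m = Real.log (Real.log (T / 2)) := ⟨_, rfl⟩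
  rw [← hl] at h4 h5 hx1 ⊢
  have hL0 : 0 < Real.log (T / 2) := by linarith
  have hL1 : 0 < Real.log T := by linarith
  have hml : m ≤ l := by rw [hm, hl]; exact Real.log_le_log hL0 hh3
  have hlm : l - 1 ≤ m := by
    have e1 : Real.log (Real.log T / 2) ≤ m := by rw [hm]; exact Real.log_le_log (by linarith) hh2
    rw [Real.log_div hL1.ne' (by norm_num), ← hl] at e1
    have := Real.log_two_lt_d9
    linarith
  have hη4 : 2 ≤ η * l := by
    rw [div_le_iff₀ hη0] at h4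
    linarith
  have hε5 : 2 ≤ ε * l := by
    rw [div_le_iff₀ hε] at h5
    linarith
  have hl32 : 32 ≤ l := by nlinarith
  have hl0 : 0 < l := by linarith
  have hm0 : 0 < m := by linarith
  obtain ⟨κ, hκ⟩ : ∃ κ : ℝ, κ = -(x / l) - 2 * η := ⟨_, rfl⟩
  have hxl0 : 0 ≤ x / l := div_nonneg hx0 hl0.le
  have hxl1 : x / l ≤ 1 / 2 := by rw [div_le_iff₀ hl0]; exact hx1
  have hκ1 : |κ| ≤ 1 := by
    rw [hκ, abs_le]
    constructor <;> linarith
  obtain ⟨r, E, -, -, -, hE, hEv, hEt⟩ := hT₀ (T / 2) κ (by linarith) hκ1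
  have hLp : ∀ y : ℝ, Real.log (T / 2) ^ y = Real.exp (y * m) := fun y => by
    rw [Real.rpow_def_of_pos hL0, ← hm, mul_comm]
  have hLp' : ∀ y : ℝ, Real.log T ^ y = Real.exp (y * l) := fun y => by
    rw [Real.rpow_def_of_pos hL1, ← hl, mul_comm]
  have hsub : E ⊆ sm 0 T x := by
    intro t ht
    have h6 := hE ht
    refine ⟨⟨by linarith [h6.1], by linarith [h6.2]⟩, ?_⟩
    refine lt_of_le_of_lt (hEt t ht).2.1 ?_
    rw [hLp]
    refine Real.exp_lt_exp.2 ?_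
    have e1 : (κ + η) * m = -(x / l) * m - η * m := by rw [hκ]; ring
    rw [e1]
    have e2 : x - x / l * m = x / l * (l - m) := by field_simp
    have e3 : x / l * (l - m) ≤ 1 / 2 * 1 := mul_le_mul hxl1 (by linarith) (by linarith) (by norm_num)
    have e4 : η * (l - 1) ≤ η * m := mul_le_mul_of_nonneg_left hlm hη0.le
    nlinarith
  refine le_trans ?_ (hEv.trans (measureReal_mono hsub (sm_fin _ _ _)))
  rw [hLp, hLp', ← Real.exp_add]
  have e5 : T / 2 * Real.exp ((-κ ^ 2 - η) * m) = T * (Real.exp (-Real.log 2) * Real.exp ((-κ ^ 2 - η) * m)) := by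
    rw [Real.exp_neg, Real.exp_log (by norm_num)]
    ring
  rw [e5, ← Real.exp_add]
  refine mul_le_mul_of_nonneg_left (Real.exp_le_exp.2 ?_) (by linarith)
  have e6 : x ^ 2 / l = (x / l) ^ 2 * l := by field_simp
  rw [e6]
  have e7 : κ ^ 2 ≤ (x / l) ^ 2 + 4 * η := by
    have : κ ^ 2 = (x / l) ^ 2 + 4 * η * (x / l) + 4 * η ^ 2 := by rw [hκ]; ring
    rw [this]
    nlinarith
  have e8 : (κ ^ 2 + η) * m ≤ ((x / l) ^ 2 + 5 * η) * l := by
    refine mul_le_mul (by linarith) hml hm0.le (by positivity)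
  have e9 := Real.log_two_lt_d9
  nlinarith

/-- far deviations -/
theorem tail_two (ε : ℝ) (hε : 0 < ε) : ∀ᶠ T : ℝ in atTop, ∀ x : ℝ, 1 / 2 * Real.log (Real.log T) ≤ x →
    T * (Real.log T ^ (1 / 4 - ε) * Real.exp (-x)) ≤ volume.real (sm 0 T x) := by
  obtain ⟨η, hηd⟩ : ∃ η : ℝ, η = min (ε / 2) (1 / 8) := ⟨_, rfl⟩
  have hη0 : 0 < η := by rw [hηd]; exact lt_min (by linarith) (by norm_num)
  have hη1 : η ≤ ε / 2 := by rw [hηd]; exact min_le_left _ _
  have hη2 : η ≤ 1 / 8 := by rw [hηd]; exact min_le_right _ _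
  have hLL : Tendsto (fun T : ℝ => Real.log (Real.log T)) atTop atTop := Real.tendsto_log_atTop.comp Real.tendsto_log_atTop
  have hhalf : Tendsto (fun T : ℝ => T / 2) atTop atTop := tendsto_id.atTop_div_const (by norm_num)
  filter_upwards [log_half, hhalf.eventually (ztail η hη0), eventually_gt_atTop 2,
    hLL.eventually_ge_atTop (4 / ε)] with T h1 h2 h3 h4
  intro x hx
  obtain ⟨hh1, hh2, hh3⟩ := h1
  obtain ⟨l, hl⟩ : ∃ l : ℝ, l = Real.log (Real.log T) := ⟨_, rfl⟩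
  obtain ⟨m, hm⟩ : ∃ m : ℝ, m = Real.log (Real.log (T / 2)) := ⟨_, rfl⟩
  have hL0 : 0 < Real.log (T / 2) := by linarith
  have hL1 : 0 < Real.log T := by linarith
  rw [← hl] at h4 hx
  have hml : m ≤ l := by rw [hm, hl]; exact Real.log_le_log hL0 hh3
  have hlm : l - 1 ≤ m := by
    have e1 : Real.log (Real.log T / 2) ≤ m := by rw [hm]; exact Real.log_le_log (by linarith) hh2
    rw [Real.log_div hL1.ne' (by norm_num), ← hl] at e1
    have := Real.log_two_lt_d9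
    linarith
  have hε4 : 4 ≤ ε * l := by
    rw [div_le_iff₀ hε] at h4
    linarith
  have h5 := h2 x (by
    have : LL (T / 2) = m := by rw [hm]; rfl
    rw [this]
    linarith)
  have h6 : volume.real {t : ℝ | t ∈ Set.Icc (T / 2) (2 * (T / 2)) ∧
    ‖riemannZeta (1 / 2 + t * I)‖ < Real.exp (-x)} ≤ volume.real (sm 0 T x) :=
    sm_mono (A := T / 2) (B := 2 * (T / 2)) (by linarith) (by linarith)
  refine le_trans ?_ (h5.trans h6)
  have hLp : ∀ y : ℝ, Real.log (T / 2) ^ y = Real.exp (y * m) := fun y => by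
    rw [Real.rpow_def_of_pos hL0, ← hm, mul_comm]
  have hLp' : ∀ y : ℝ, Real.log T ^ y = Real.exp (y * l) := fun y => by
    rw [Real.rpow_def_of_pos hL1, ← hl, mul_comm]
  rw [hLp, hLp']
  have e5 : T / 2 * Real.exp (-x) * Real.exp ((1 / 4 - η) * m) =
      T * (Real.exp (-Real.log 2 + (1 / 4 - η) * m) * Real.exp (-x)) := by
    rw [Real.exp_add, Real.exp_neg (Real.log 2), Real.exp_log (by norm_num)]
    ring
  rw [e5]
  refine mul_le_mul_of_nonneg_left (mul_le_mul_of_nonneg_right (Real.exp_le_exp.2 ?_) (Real.exp_pos _).le) (by linarith)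
  have e6 : (1 / 4 - η) * (l - 1) ≤ (1 / 4 - η) * m := mul_le_mul_of_nonneg_left hlm (by linarith)
  have e9 := Real.log_two_lt_d9
  nlinarith

/-- the limit of the tail -/
theorem tail_lim : ∃ c : ℝ, 0 < c ∧ ∀ᶠ T : ℝ in atTop, ∀ᶠ x : ℝ in atTop,
    T * (c * Real.log T ^ (1 / 4 : ℝ) * Real.exp (-x)) ≤ volume.real (sm 0 T x) := by
  obtain ⟨d, hd, hd1, hJ⟩ := Pool.Agent.Q97.UM.J_low
  obtain ⟨c, hc, hJ⟩ := hJ 1 le_rfl
  have hhalf : Tendsto (fun T : ℝ => T / 2) atTop atTop := tendsto_id.atTop_div_const (by norm_num)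
  refine ⟨c / 8, by positivity, ?_⟩
  filter_upwards [hhalf.eventually hJ, log_half, eventually_ge_atTop (32 : ℝ)] with T h1 h2 h3
  obtain ⟨hh1, hh2, hh3⟩ := h2
  have h4 := h1 (-1 / 2) (by rw [abs_le]; constructor <;> norm_num)
  have hZ : ∀ s ∈ Pool.Agent.Q97.UM.ZI d (T / 2), s.re = 1 / 2 ∧ T / 2 < s.im ∧ s.im ≤ 2 * (T / 2) ∧
      riemannZeta s = 0 ∧ deriv riemannZeta s ≠ 0 := fun s hs => by
    have := (Pool.Agent.Q97.UM.mem_ZI_iff (d := d) (T := T / 2) (by linarith) hd1).1 hs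
    exact ⟨this.1, this.2.1, this.2.2.1, this.2.2.2.1, this.2.2.2.2.1⟩
  have h5 := sum_le (Pool.Agent.Q97.UM.ZI d (T / 2)) T (fun s hs => (hZ s hs).1) (fun s hs => (hZ s hs).2.2.2.1)
    (fun s hs => (hZ s hs).2.2.2.2) (fun s hs => by linarith [(hZ s hs).2.1]) (fun s hs => by linarith [(hZ s hs).2.2.1])
  filter_upwards [h5] with x hx
  refine le_trans ?_ hx
  have e1 : ∑ s ∈ Pool.Agent.Q97.UM.ZI d (T / 2), (2 * ‖deriv riemannZeta s‖)⁻¹ =
      1 / 2 * ∑ s ∈ Pool.Agent.Q97.UM.ZI d (T / 2), ‖deriv riemannZeta s‖ ^ (2 * (-1 / 2 : ℝ)) := by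
    rw [Finset.mul_sum]
    refine Finset.sum_congr rfl fun s hs => ?_
    have : (2 * (-1 / 2 : ℝ)) = -1 := by norm_num
    rw [this, Real.rpow_neg_one, mul_inv]
    norm_num
  rw [e1]
  have hL0 : 0 < Real.log (T / 2) := by linarith
  have hL1 : 0 < Real.log T := by linarith
  have e2 : ((-1 / 2 : ℝ) + 1) ^ 2 = 1 / 4 := by norm_num
  rw [e2] at h4
  have e3 : 1 / 2 * Real.log T ^ (1 / 4 : ℝ) ≤ Real.log (T / 2) ^ (1 / 4 : ℝ) := by
    have e4 : (Real.log T / 2) ^ (1 / 4 : ℝ) ≤ Real.log (T / 2) ^ (1 / 4 : ℝ) :=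
      Real.rpow_le_rpow (by linarith) hh2 (by norm_num)
    refine le_trans ?_ e4
    rw [Real.div_rpow hL1.le (by norm_num)]
    have e5 : (2 : ℝ) ^ (1 / 4 : ℝ) ≤ 2 := by
      calc (2 : ℝ) ^ (1 / 4 : ℝ) ≤ 2 ^ (1 : ℝ) := Real.rpow_le_rpow_of_exponent_le (by norm_num) (by norm_num)
        _ = 2 := Real.rpow_one 2
    have e6 : 0 < (2 : ℝ) ^ (1 / 4 : ℝ) := by positivity
    rw [le_div_iff₀ e6]
    have e7 : 0 ≤ Real.log T ^ (1 / 4 : ℝ) := by positivity
    nlinarith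
  have e8 : T * (c / 8 * Real.log T ^ (1 / 4 : ℝ) * Real.exp (-x)) =
      Real.exp (-x) * (1 / 2 * (c * (T / 2) * (1 / 2 * Real.log T ^ (1 / 4 : ℝ)))) := by ring
  rw [e8]
  refine mul_le_mul_of_nonneg_left (mul_le_mul_of_nonneg_left (le_trans ?_ h4) (by norm_num)) (Real.exp_pos _).le
  refine mul_le_mul_of_nonneg_left e3 ?_
  have : 0 < T := by linarith
  positivity

end Pool.Agent.H158.LT
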